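import Pool.Agent.L7h59.NC.Def

/-! # Project NC, part WED: an Artinian ring which is finite over its centre -/

set_option autoImplicit false

namespace Pool.Agent.L7h47.NC

open Pool.Agent.L7h59.NC

/-- A quotient of a ring which is finite over its centre is finite over its centre. -/
lemma finite_center_of_surjective {S R : Type} [Ring S] [Ring R]
    [hS : Module.Finite (Subring.center S) S] (f : S →+* R) (hf : Function.Surjective f) :
    Module.Finite (Subring.center R) R := by
  classical
  obtain ⟨t, ht⟩ := hS.fg_top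
  refine ⟨⟨t.image f, ?_⟩⟩
  rw [eq_top_iff]
  rintro x -
  obtain ⟨y, rfl⟩ := hf x
  have hy : y ∈ Submodule.span (Subring.center S) (t : Set S) := by
    rw [ht]
    trivial
  induction hy using Submodule.span_induction with
  | mem z hz => exact Submodule.subset_span (by
      rw [Finset.coe_image]
      exact ⟨z, hz, rfl⟩)
  | zero => rw [map_zero]; exact Submodule.zero_mem _
  | add a b _ _ ha hb => rw [map_add]; exact Submodule.add_mem _ ha hb
  | smul c a _ ha =>
    have hc : f c.1 ∈ Subring.center R := by
      rw [Subring.mem_center_iff]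
      intro g
      obtain ⟨g', rfl⟩ := hf g
      rw [← map_mul, ← map_mul, Subring.mem_center_iff.1 c.2 g']
    have e : f (c • a) = (⟨f c.1, hc⟩ : Subring.center R) • f a := by
      change f (c.1 * a) = f c.1 * f a
      exact map_mul f _ _
    rw [e]
    exact Submodule.smul_mem _ _ ha

/-- Part WED. -/
theorem s_WED : S_WED := by
  intro S _ _ _
  have hsp : IsSemiprimaryRing S := inferInstance
  obtain ⟨n, D, d, _, hd, ⟨e⟩⟩ :=
    IsSemisimpleRing.exists_ringEquiv_pi_matrix_divisionRing (S ⧸ Ring.jacobson S)
  have hne : ∀ i, Nonempty (Fin (d i)) := fun i => ⟨⟨0, Nat.pos_of_ne_zero (hd i).out⟩⟩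
  refine ⟨S ⧸ Ring.jacobson S, inferInstance, Ideal.Quotient.mk (Ring.jacobson S), Fin n,
    inferInstance, inferInstance, fun i => Matrix (Fin (d i)) (Fin (d i)) (D i),
    fun i => inferInstance,
    fun i => (Pi.evalRingHom (fun i => Matrix (Fin (d i)) (Fin (d i)) (D i)) i).comp e.toRingHom,
    Ideal.Quotient.mk_surjective, ?_, ?_, ?_, ?_⟩
  · obtain ⟨N, hN⟩ := hsp.isNilpotent
    refine ⟨N, ?_⟩
    rw [Ideal.mk_ker, hN]
    rfl
  · intro hss
    rw [RingHom.injective_iff_ker_eq_bot, Ideal.mk_ker]
    exact IsSemisimpleRing.jacobson_eq_bot S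
  · exact e.bijective
  · intro i
    have hs : Function.Surjective (((Pi.evalRingHom (fun i => Matrix (Fin (d i)) (Fin (d i)) (D i)) i).comp
        e.toRingHom).comp (Ideal.Quotient.mk (Ring.jacobson S))) := by
      intro x
      obtain ⟨y, hy⟩ : ∃ y : (∀ i, Matrix (Fin (d i)) (Fin (d i)) (D i)), y i = x :=
        ⟨Function.update 0 i x,
          Function.update_self (β := fun i => Matrix (Fin (d i)) (Fin (d i)) (D i)) i x 0⟩
      obtain ⟨z, hz⟩ := e.surjective y
      obtain ⟨w, hw⟩ := Ideal.Quotient.mk_surjective z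
      refine ⟨w, ?_⟩
      change e (Ideal.Quotient.mk (Ring.jacobson S) w) i = x
      rw [hw, hz]
      exact hy
    exact ⟨inferInstance, finite_center_of_surjective _ hs⟩

end Pool.Agent.L7h47.NC
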